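import Mathlib

set_option autoImplicit false

/-! The bipartite graphs are described by finitely many forbidden linearly ordered graphs, but not
by finitely many forbidden circularly ordered graphs. -/

namespace Pool.Agent.Results.MP_b6cdd3_co.BipartiteNotCircular

open SimpleGraph

/-- A graph property (a predicate on graphs) is hereditary: closed under isomorphism and under
induced subgraphs. -/
def IsHereditary (P : ∀ V : Type, SimpleGraph V → Prop) : Prop :=
  ∀ (V W : Type) (G : SimpleGraph V) (H : SimpleGraph W), P V G → H.IsIndContained G → P W H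

/-- The property `P` of finite graphs is described by finitely many forbidden linearly ordered
graphs: there is a finite set `F` of graphs on sets `Fin n` (with their usual linear order) such
that a finite graph has the property exactly if its vertex set has a linear order for which no
member of `F` is an ordered induced subgraph. -/
def DescribedLinearly (P : ∀ V : Type, SimpleGraph V → Prop) : Prop :=
  ∃ F : Set (Σ n : ℕ, SimpleGraph (Fin n)), F.Finite ∧
    ∀ (V : Type) [Finite V] (G : SimpleGraph V), P V G ↔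
      ∃ _ : LinearOrder V, ∀ H ∈ F, ¬ ∃ e : Fin H.1 → V, StrictMono e ∧
        ∀ i j, G.Adj (e i) (e j) ↔ H.2.Adj i j

/-- The property `P` of finite graphs is described by finitely many forbidden circularly ordered
graphs: there is a finite set `F` of graphs on sets `Fin n` (with the circular order `0, 1, …, n-1`)
such that a finite graph has the property exactly if its vertex set has a circular order for which
no member of `F` is a circularly ordered induced subgraph. -/
def DescribedCircularly (P : ∀ V : Type, SimpleGraph V → Prop) : Prop :=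
  ∃ F : Set (Σ n : ℕ, SimpleGraph (Fin n)), F.Finite ∧
    ∀ (V : Type) [Finite V] (G : SimpleGraph V), P V G ↔
      ∃ _ : CircularOrder V, ∀ H ∈ F, ¬ ∃ e : Fin H.1 → V, Function.Injective e ∧
        (∀ i j k, i < j → j < k → sbtw (e i) (e j) (e k)) ∧
        ∀ i j, G.Adj (e i) (e j) ↔ H.2.Adj i j

/-- The property of being bipartite. -/
def Bip : ∀ V : Type, SimpleGraph V → Prop := fun _ G => G.Colorable 2

/-! ### The linear description -/

theorem bip_hereditary : IsHereditary Bip := by
  intro V W G H hG hH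
  obtain ⟨f⟩ := hH
  obtain ⟨c⟩ := hG
  exact ⟨c.comp f.toHom⟩

theorem bip_linear : DescribedLinearly Bip := by
  classical
  refine ⟨(fun H : SimpleGraph (Fin 3) => (⟨3, H⟩ : Σ n : ℕ, SimpleGraph (Fin n))) ''
    {H | H.Adj 0 1 ∧ H.Adj 1 2}, (Set.toFinite _).image _, ?_⟩
  intro V _ G
  constructor
  · rintro ⟨c⟩
    obtain ⟨n, ⟨e⟩⟩ := Finite.exists_equiv_fin V
    set h : V → ℕ := fun v => (c v).val * n + (e v).val with hh
    have hinj : Function.Injective h := by
      intro u v huv
      simp only [hh] at huv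
      have h1 := (e u).2
      have h2 := (e v).2
      have h3 := (c u).2
      have h4 := (c v).2
      have h5 : (c u).val = (c v).val := by
        by_contra hne
        rcases Nat.lt_or_gt_of_ne hne with h | h
        · have : (c u).val = 0 ∧ (c v).val = 1 := by omega
          rw [this.1, this.2] at huv
          omega
        · have : (c u).val = 1 ∧ (c v).val = 0 := by omega
          rw [this.1, this.2] at huv
          omega
      rw [h5] at huv
      exact e.injective (Fin.ext (by omega))
    refine ⟨LinearOrder.lift' h hinj, ?_⟩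
    rintro _ ⟨H, ⟨hH1, hH2⟩, rfl⟩ ⟨f, hf, hadj⟩
    have h01 : h (f 0) < h (f 1) := hf (by decide : (0 : Fin 3) < 1)
    have h12 : h (f 1) < h (f 2) := hf (by decide : (1 : Fin 3) < 2)
    have a01 := c.valid ((hadj 0 1).2 hH1)
    have a12 := c.valid ((hadj 1 2).2 hH2)
    have b0 := (c (f 0)).2
    have b1 := (c (f 1)).2
    have b2 := (c (f 2)).2
    have n01 : (c (f 0)).val ≠ (c (f 1)).val := fun h => a01 (Fin.ext h)
    have n12 : (c (f 1)).val ≠ (c (f 2)).val := fun h => a12 (Fin.ext h)
    simp only [hh] at h01 h12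
    have e0 := (e (f 0)).2
    have e1 := (e (f 1)).2
    have e2 := (e (f 2)).2
    rcases Nat.eq_zero_or_pos (c (f 1)).val with h1 | h1
    · have h0 : (c (f 0)).val = 1 := by omega
      rw [h0, h1] at h01
      omega
    · have h1' : (c (f 1)).val = 1 := by omega
      have h2 : (c (f 2)).val = 0 := by omega
      rw [h1', h2] at h12
      omega
  · rintro ⟨hlin, hF⟩
    refine ⟨SimpleGraph.Coloring.mk
      (fun v => if ∃ u, u < v ∧ G.Adj u v then (1 : Fin 2) else 0) ?_⟩
    have main : ∀ u v, u < v → G.Adj u v →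
        (if ∃ w, w < u ∧ G.Adj w u then (1 : Fin 2) else 0) ≠
        (if ∃ w, w < v ∧ G.Adj w v then (1 : Fin 2) else 0) := by
      intro u v huv hadj
      rw [if_pos (show ∃ w, w < v ∧ G.Adj w v from ⟨u, huv, hadj⟩)]
      by_cases hu : ∃ w, w < u ∧ G.Adj w u
      · exfalso
        obtain ⟨w, hw1, hw2⟩ := hu
        let f : Fin 3 → V := ![w, u, v]
        have hf : StrictMono f := by
          intro i j hij
          fin_cases i <;> fin_cases j <;>
            first
            | exact absurd hij (by decide)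
            | exact hw1
            | exact huv
            | exact hw1.trans huv
        refine hF ⟨3, G.comap f⟩ ⟨G.comap f, ⟨hw2, hadj⟩, rfl⟩ ⟨f, hf, fun i j => Iff.rfl⟩
      · rw [if_neg hu]
        decide
    intro u v hadj
    rcases lt_or_gt_of_ne hadj.ne with h | h
    · exact main u v h hadj
    · exact (main v u h hadj.symm).symm

/-! ### Cutting circular orders -/

section cut
variable {V : Type}

/-- `f` gives positions on the circle. -/
def IsPos [CircularOrder V] (f : V → ℕ) : Prop :=
  Function.Injective f ∧ ∀ x y z, f x < f y → f y < f z → sbtw x y z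

theorem exists_pos [CircularOrder V] [Finite V] (p : V) : ∃ f : V → ℕ, IsPos f := by
  classical
  haveI : Fintype V := Fintype.ofFinite V
  have hA : ∀ x y, x ≠ y → x ≠ p → y ≠ p → sbtw p x y ∨ sbtw p y x := by
    intro x y hxy hx hy
    by_contra hcon
    push Not at hcon
    rw [sbtw_iff_not_btw, sbtw_iff_not_btw, not_not, not_not] at hcon
    rcases btw_antisymm hcon.1 hcon.2.cyclic_right with h | h | h
    · exact hxy h.symm
    · exact hx h
    · exact hy h.symm
  set f : V → ℕ := fun x => (Finset.univ.filter (fun y => sbtw p y x)).card +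
    (if x = p then 0 else 1) with hf
  have hfp : f p = 0 := by
    have : (Finset.univ.filter (fun y => sbtw p y p)) = ∅ := by
      rw [Finset.filter_eq_empty_iff]
      intro y _
      exact sbtw_irrefl_left_right
    simp [hf, this]
  have hfpos : ∀ x, x ≠ p → 0 < f x := by
    intro x hx
    simp only [hf, if_neg hx]
    omega
  have hB : ∀ x y, sbtw p x y → f x < f y := by
    intro x y h
    have hx : x ≠ p := by
      rintro rfl
      exact sbtw_irrefl_left h
    have hy : y ≠ p := by
      rintro rfl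
      exact sbtw_irrefl_left_right h
    simp only [hf, if_neg hx, if_neg hy]
    apply Nat.add_lt_add_right
    apply Finset.card_lt_card
    rw [Finset.ssubset_iff_of_subset]
    · refine ⟨x, ?_, ?_⟩
      · simpa using h
      · simp only [Finset.mem_filter, Finset.mem_univ, true_and]
        exact sbtw_irrefl_right
    · intro z hz
      simp only [Finset.mem_filter, Finset.mem_univ, true_and] at hz ⊢
      exact hz.trans_right h
  have hC : ∀ x y, x ≠ p → y ≠ p → f x < f y → sbtw p x y := by
    intro x y hx hy hlt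
    have hxy : x ≠ y := by rintro rfl; omega
    rcases hA x y hxy hx hy with h | h
    · exact h
    · have := hB _ _ h; omega
  refine ⟨f, ?_, ?_⟩
  · intro x y hxy
    by_contra hne
    by_cases hx : x = p
    · subst hx
      have := hfpos y (Ne.symm hne)
      omega
    · by_cases hy : y = p
      · subst hy
        have := hfpos x hx
        omega
      · rcases hA x y hne hx hy with h | h
        · have := hB _ _ h; omega
        · have := hB _ _ h; omega
  · intro x y z hxy hyz
    have hy : y ≠ p := by rintro rfl; omega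
    have hz : z ≠ p := by rintro rfl; omega
    have h1 := hC y z hy hz hyz
    by_cases hx : x = p
    · rw [hx]; exact h1
    · have h2 := hC x y hx hy hxy
      have h3 : sbtw y z p := h1.cyclic_left
      have h4 : sbtw y p x := h2.cyclic_right
      exact (h3.trans_right h4).cyclic_right

theorem pos_rotate [CircularOrder V] {f : V → ℕ} (hf : IsPos f) (τ L : ℕ)
    (hL : ∀ v, f v < L) : IsPos (fun v => if f v < τ then f v + L else f v) := by
  refine ⟨?_, ?_⟩
  · intro x y hxy
    apply hf.1
    have hx := hL x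
    have hy := hL y
    simp only at hxy
    split_ifs at hxy <;> omega
  · intro x y z hxy hyz
    have hx := hL x
    have hy := hL y
    have hz := hL z
    simp only at hxy hyz
    split_ifs at hxy hyz
    all_goals first
      | omega
      | exact hf.2 x y z (by omega) (by omega)
      | exact (hf.2 z x y (by omega) (by omega)).cyclic_left
      | exact (hf.2 y z x (by omega) (by omega)).cyclic_right

end cut

/-! ### Splitting a set into consecutive pieces -/

theorem exists_split {α : Type} [DecidableEq α] (g : α → ℕ) (hg : Function.Injective g)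
    (S : Finset α) (m q : ℕ) (h : m * q ≤ S.card) :
    ∃ T : Fin m → Finset α, (∀ j, T j ⊆ S) ∧ (∀ j, (T j).card = q) ∧
      ∀ j j', j < j' → ∀ x ∈ T j, ∀ y ∈ T j', g x < g y := by
  classical
  by_cases hq : q = 0
  · subst hq
    exact ⟨fun _ => ∅, fun _ => Finset.empty_subset _, fun _ => rfl, by simp⟩
  set ρ : α → ℕ := fun x => (S.filter (fun y => g y < g x)).card with hρ
  have hmono : ∀ x ∈ S, ∀ y ∈ S, g x < g y → ρ x < ρ y := by
    intro x hx y hy hxy
    apply Finset.card_lt_card
    rw [Finset.ssubset_iff_of_subset]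
    · exact ⟨x, Finset.mem_filter.2 ⟨hx, hxy⟩, fun h => lt_irrefl _ (Finset.mem_filter.1 h).2⟩
    · intro z hz
      rw [Finset.mem_filter] at hz ⊢
      exact ⟨hz.1, hz.2.trans hxy⟩
  have hinj : Set.InjOn ρ S := by
    intro x hx y hy hxy
    by_contra hne
    rcases lt_or_gt_of_ne (fun h => hne (hg h)) with h | h
    · have := hmono x hx y hy h; omega
    · have := hmono y hy x hx h; omega
  have himg : S.image ρ = Finset.range S.card := by
    apply Finset.eq_of_subset_of_card_le
    · intro r hr
      obtain ⟨x, hx, rfl⟩ := Finset.mem_image.1 hr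
      rw [Finset.mem_range]
      apply Finset.card_lt_card
      rw [Finset.ssubset_iff_of_subset (Finset.filter_subset _ _)]
      exact ⟨x, hx, fun h => lt_irrefl _ (Finset.mem_filter.1 h).2⟩
    · rw [Finset.card_image_of_injOn hinj, Finset.card_range]
  refine ⟨fun j => S.filter (fun x => ρ x / q = j.1), fun j => Finset.filter_subset _ _, ?_, ?_⟩
  · intro j
    have h1 : ((S.filter (fun x => ρ x / q = j.1)).image ρ) =
        (Finset.range S.card).filter (fun r => r / q = j.1) := by
      rw [← himg]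
      ext r
      simp only [Finset.mem_image, Finset.mem_filter]
      constructor
      · rintro ⟨x, ⟨hx, hx2⟩, rfl⟩
        exact ⟨⟨x, hx, rfl⟩, hx2⟩
      · rintro ⟨⟨x, hx, rfl⟩, hx2⟩
        exact ⟨x, ⟨hx, hx2⟩, rfl⟩
    have h2 : (Finset.range S.card).filter (fun r => r / q = j.1) =
        Finset.Ico (j.1 * q) (j.1 * q + q) := by
      ext r
      rw [Finset.mem_filter, Finset.mem_range, Finset.mem_Ico, Nat.div_eq_iff (Nat.pos_of_ne_zero hq)]
      have hj := j.2
      have : (j.1 + 1) * q ≤ m * q := Nat.mul_le_mul_right q hj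
      have e : (j.1 + 1) * q = j.1 * q + q := by ring
      constructor
      · rintro ⟨h3, h4, h5⟩
        constructor <;> omega
      · rintro ⟨h3, h4⟩
        refine ⟨by omega, ?_, ?_⟩ <;> omega
    rw [← Finset.card_image_of_injOn (f := ρ), h1, h2, Nat.card_Ico]
    · omega
    · intro x hx y hy
      exact hinj (Finset.mem_filter.1 hx).1 (Finset.mem_filter.1 hy).1
  · intro j j' hjj x hx y hy
    rw [Finset.mem_filter] at hx hy
    by_contra hcon
    push Not at hcon
    have h1 : ρ y ≤ ρ x := by
      rcases Nat.lt_or_ge (g y) (g x) with h | h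
      · exact (hmono y hy.1 x hx.1 h).le
      · rw [hg (le_antisymm hcon h)]
    have h2 : ρ y / q ≤ ρ x / q := Nat.div_le_div_right h1
    rw [hx.2, hy.2] at h2
    have : j.1 < j'.1 := hjj
    omega

/-! ### The universal bipartite graph -/

/-- The bipartite graph between `Fin N` and the set of all subsets of `Fin N`. -/
def UG (N : ℕ) : SimpleGraph (Fin N ⊕ (Fin N → Bool)) :=
  SimpleGraph.fromRel (fun u v => ∃ x y, u = .inl x ∧ v = .inr y ∧ y x = true)

theorem ug_lr {N : ℕ} (x : Fin N) (y : Fin N → Bool) :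
    (UG N).Adj (.inl x) (.inr y) ↔ y x = true := by
  simp [UG]

theorem ug_ll {N : ℕ} (x x' : Fin N) : ¬ (UG N).Adj (.inl x) (.inl x') := by
  simp [UG]

theorem ug_rr {N : ℕ} (y y' : Fin N → Bool) : ¬ (UG N).Adj (.inr y) (.inr y') := by
  simp [UG]

theorem ug_bip (N : ℕ) : Bip _ (UG N) := by
  refine ⟨SimpleGraph.Coloring.mk (Sum.elim (fun _ => 0) (fun _ => 1)) ?_⟩
  rintro (x | x) (y | y) h
  · exact absurd h (ug_ll x y)
  · simp
  · simp
  · exact absurd h (ug_rr x y)

/-- A family of subsets that misses a trace on each of `r` disjoint `m`-sets is small. -/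
theorem missing_traces {N r m : ℕ} (A : Fin r × Fin m → Fin N) (hA : Function.Injective A)
    (t : Fin r → Fin m → Bool) (Y : Finset (Fin N → Bool))
    (hY : ∀ y ∈ Y, ∀ i, (fun j => y (A (i, j))) ≠ t i) :
    Y.card * 2 ^ (r * m) ≤ (2 ^ m - 1) ^ r * 2 ^ N := by
  classical
  -- `Y` injects into (functions missing `t i`) × (functions on the complement)
  let C : Type := {x : Fin N // x ∉ Set.range A}
  haveI : Fintype C := Fintype.ofFinite C
  let D : Fin r → Type := fun i => {s : Fin m → Bool // s ≠ t i}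
  have hinj : Function.Injective (fun y : Y =>
      ((fun i => (⟨fun j => y.1 (A (i, j)), hY y.1 y.2 i⟩ : D i), fun c : C => y.1 c.1) :
        (∀ i, D i) × (C → Bool))) := by
    intro y y' h
    simp only [Prod.mk.injEq] at h
    apply Subtype.ext
    funext x
    by_cases hx : x ∈ Set.range A
    · obtain ⟨⟨i, j⟩, rfl⟩ := hx
      have := congrFun h.1 i
      exact congrFun (congrArg Subtype.val this) j
    · exact congrFun h.2 ⟨x, hx⟩
  have h1 := Fintype.card_le_of_injective _ hinj
  rw [Fintype.card_coe, Fintype.card_prod, Fintype.card_pi] at h1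
  have h2 : ∀ i, Fintype.card (D i) = 2 ^ m - 1 := by
    intro i
    show Fintype.card {s : Fin m → Bool // s ≠ t i} = _
    rw [Fintype.card_subtype_compl]
    simp
  have h3 : Fintype.card (C → Bool) = 2 ^ (N - r * m) := by
    rw [Fintype.card_fun, Fintype.card_bool]
    congr 1
    have e1 : Fintype.card C = Fintype.card (Fin N) - Fintype.card (Set.range A) := by
      show Fintype.card {x : Fin N // ¬ (x ∈ Set.range A)} = _
      rw [Fintype.card_subtype_compl]
    rw [e1, Set.card_range_of_injective hA]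
    simp
  have h4 : r * m ≤ N := by
    have := Fintype.card_le_of_injective A hA
    simpa using this
  simp only [h2, h3, Finset.prod_const, Finset.card_univ, Fintype.card_fin] at h1
  calc Y.card * 2 ^ (r * m) ≤ ((2 ^ m - 1) ^ r * 2 ^ (N - r * m)) * 2 ^ (r * m) :=
        Nat.mul_le_mul_right _ h1
    _ = (2 ^ m - 1) ^ r * 2 ^ N := by
        rw [mul_assoc, ← pow_add, Nat.sub_add_cancel h4]

/-- Numbers with which the counting works. -/
theorem exists_r0 (m : ℕ) (hm : 1 ≤ m) : ∃ r0 : ℕ,
    (2 ^ m - 1) ^ r0 * (2 * m) < 2 ^ (r0 * m) := by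
  have hp : (0 : ℝ) < 2 ^ m := by positivity
  have h1 : ((2 : ℝ) ^ m - 1) / 2 ^ m < 1 := by
    rw [div_lt_one hp]
    linarith
  have hm0 : (0 : ℝ) < 2 * m := by
    have : (0 : ℝ) < m := by exact_mod_cast hm
    linarith
  obtain ⟨r0, hr⟩ := exists_pow_lt_of_lt_one (show (0 : ℝ) < 1 / (2 * m) by positivity) h1
  refine ⟨r0, ?_⟩
  rw [div_pow, div_lt_div_iff₀ (by positivity) hm0, one_mul] at hr
  have h2 : (((2 ^ m - 1 : ℕ) : ℝ)) = (2 : ℝ) ^ m - 1 := by
    rw [Nat.cast_sub (Nat.one_le_two_pow)]
    push_cast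
    ring
  have h3 : (((2 ^ m - 1) ^ r0 * (2 * m) : ℕ) : ℝ) < ((2 ^ (r0 * m) : ℕ) : ℝ) := by
    push_cast
    rw [← h2] at hr
    rw [Nat.mul_comm r0 m, pow_mul]
    push_cast at hr ⊢
    exact hr
  exact_mod_cast h3

/-- The pattern, given positions for which a large set `X'` of points precedes a large set `Y'` of
subsets. -/
theorem extract {N m r0 q : ℕ} [CircularOrder (Fin N ⊕ (Fin N → Bool))]
    (g : Fin N ⊕ (Fin N → Bool) → ℕ) (hg : IsPos g) (hm : 1 ≤ m)
    (hq : (2 ^ m - 1) ^ r0 * 2 ^ N < q * 2 ^ (r0 * m))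
    (X : Finset (Fin N)) (Y : Finset (Fin N → Bool)) (hX : (m * r0) * m ≤ X.card)
    (hY : m * q ≤ Y.card) (hXY : ∀ x ∈ X, ∀ y ∈ Y, g (.inl x) < g (.inr y)) :
    ∃ φ : ℕ → Fin N ⊕ (Fin N → Bool),
      (∀ s t, 1 ≤ s → s < t → t ≤ 2 * m → g (φ s) < g (φ t)) ∧
      (∀ s t, 1 ≤ s → s ≤ 2 * m → 1 ≤ t → t ≤ 2 * m →
        ((UG N).Adj (φ s) (φ t) ↔ (s + m = t ∨ t + m = s ∨ s + m + 1 = t ∨ t + m + 1 = s))) := by
  classical
  -- the points
  obtain ⟨T, hT1, hT2, hT3⟩ := exists_split (fun x : Fin N => g (.inl x))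
    (fun x y h => Sum.inl.inj (hg.1 h)) X ((m * r0) * m) 1 (by omega)
  have hch : ∀ k, ∃ x, x ∈ T k := by
    intro k
    have := hT2 k
    exact Finset.card_pos.1 (by omega)
  choose a ha using hch
  have haX : ∀ k, a k ∈ X := fun k => hT1 k (ha k)
  have hamono : ∀ k k', k < k' → g (.inl (a k)) < g (.inl (a k')) :=
    fun k k' h => hT3 k k' h _ (ha k) _ (ha k')
  have hainj : Function.Injective a := by
    intro k k' h
    by_contra hne
    rcases lt_or_gt_of_ne hne with h1 | h1
    · have := hamono _ _ h1; rw [h] at this; omega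
    · have := hamono _ _ h1; rw [h] at this; omega
  let A : Fin (m * r0) × Fin m → Fin N := fun p => a (finProdFinEquiv p)
  have hAinj : Function.Injective A := hainj.comp finProdFinEquiv.injective
  have hAmono : ∀ i j j', j < j' → g (.inl (A (i, j))) < g (.inl (A (i, j'))) := by
    intro i j j' h
    apply hamono
    rw [Fin.lt_def, finProdFinEquiv_apply_val, finProdFinEquiv_apply_val]
    have : j.1 < j'.1 := h
    simp only
    omega
  -- the subsets
  obtain ⟨U, hU1, hU2, hU3⟩ := exists_split (fun y : Fin N → Bool => g (.inr y))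
    (fun x y h => Sum.inr.inj (hg.1 h)) Y m q hY
  -- a block on which all traces occur
  have hgood : ∃ i, ∀ j (t : Fin m → Bool), ∃ y ∈ U j, (fun s => y (A (i, s))) = t := by
    by_contra hcon
    push Not at hcon
    choose jj tt htt using hcon
    obtain ⟨j0, -, hj0⟩ := Finset.exists_le_card_fiber_of_mul_le_card_of_maps_to
      (s := (Finset.univ : Finset (Fin (m * r0)))) (t := (Finset.univ : Finset (Fin m)))
      (f := jj) (n := r0) (fun _ _ => Finset.mem_univ _) ⟨⟨0, hm⟩, Finset.mem_univ _⟩ (by simp)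
    obtain ⟨R, hR1, hR2⟩ := Finset.exists_subset_card_eq hj0
    have eR : Fin r0 ≃ R := (finCongr hR2.symm).trans R.equivFin.symm
    have hmiss := missing_traces (fun p : Fin r0 × Fin m => A ((eR p.1).1, p.2)) (by
      intro p p' h
      have := hAinj h
      simp only [Prod.mk.injEq] at this
      have h1 : eR p.1 = eR p'.1 := Subtype.ext this.1
      exact Prod.ext (eR.injective h1) this.2) (fun i => tt (eR i).1) (U j0) (by
      intro y hy i
      have h1 : jj (eR i).1 = j0 := (Finset.mem_filter.1 (hR1 (eR i).2)).2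
      exact htt (eR i).1 y (by rw [h1]; exact hy))
    rw [hU2] at hmiss
    omega
  obtain ⟨i, hi⟩ := hgood
  have hb : ∀ j : Fin m, ∃ y ∈ U j, ∀ s : Fin m, (y (A (i, s)) = true ↔
      (s.1 = j.1 ∨ s.1 + 1 = j.1)) := by
    intro j
    obtain ⟨y, hy, hyt⟩ := hi j (fun s => decide (s.1 = j.1 ∨ s.1 + 1 = j.1))
    refine ⟨y, hy, fun s => ?_⟩
    have := congrFun hyt s
    rw [this]
    simp
  choose b hb1 hb2 using hb
  have hbmono : ∀ j j', j < j' → g (.inr (b j)) < g (.inr (b j')) :=
    fun j j' h => hU3 j j' h _ (hb1 j) _ (hb1 j')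
  have hab : ∀ s j, g (.inl (A (i, s))) < g (.inr (b j)) :=
    fun s j => hXY _ (haX _) _ (hU1 j (hb1 j))
  let φ : ℕ → Fin N ⊕ (Fin N → Bool) := fun s =>
    if h : s - 1 < m then .inl (A (i, ⟨s - 1, h⟩))
    else if h : s - m - 1 < m then .inr (b ⟨s - m - 1, h⟩) else .inl (A (i, ⟨0, hm⟩))
  have hφl : ∀ s (h1 : 1 ≤ s) (h2 : s ≤ m), φ s = .inl (A (i, ⟨s - 1, by omega⟩)) := by
    intro s h1 h2
    simp only [φ]
    rw [dif_pos (by omega)]
  have hφr : ∀ s (h1 : m < s) (h2 : s ≤ 2 * m), φ s = .inr (b ⟨s - m - 1, by omega⟩) := by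
    intro s h1 h2
    simp only [φ]
    rw [dif_neg (by omega), dif_pos (by omega)]
  refine ⟨φ, ?_, ?_⟩
  · intro s t hs hst ht
    rcases Nat.lt_or_ge m s with h1 | h1
    · rw [hφr s h1 (by omega), hφr t (by omega) ht]
      apply hbmono
      rw [Fin.lt_def]
      simp only
      omega
    · rcases Nat.lt_or_ge m t with h2 | h2
      · rw [hφl s hs h1, hφr t h2 ht]
        exact hab _ _
      · rw [hφl s hs h1, hφl t (by omega) h2]
        apply hAmono
        rw [Fin.lt_def]
        simp only
        omega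
  · intro s t hs hs2 ht ht2
    rcases Nat.lt_or_ge m s with h1 | h1
    · rcases Nat.lt_or_ge m t with h2 | h2
      · rw [hφr s h1 hs2, hφr t h2 ht2]
        constructor
        · intro h; exact absurd h (ug_rr _ _)
        · intro h; omega
      · rw [hφr s h1 hs2, hφl t ht h2, SimpleGraph.adj_comm, ug_lr, hb2]
        simp only
        omega
    · rcases Nat.lt_or_ge m t with h2 | h2
      · rw [hφl s hs h1, hφr t h2 ht2, ug_lr, hb2]
        simp only
        omega
      · rw [hφl s hs h1, hφl t ht h2]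
        constructor
        · intro h; exact absurd h (ug_ll _ _)
        · intro h; omega

/-- Every circular order of a large universal bipartite graph contains the pattern. -/
theorem exists_pattern (e : ℕ) : ∃ N : ℕ, ∀ (_ : CircularOrder (Fin N ⊕ (Fin N → Bool))),
    ∃ (g : Fin N ⊕ (Fin N → Bool) → ℕ) (φ : ℕ → Fin N ⊕ (Fin N → Bool)), IsPos g ∧
      (∀ s t, 1 ≤ s → s < t → t ≤ 2 * 2 ^ e → g (φ s) < g (φ t)) ∧
      (∀ s t, 1 ≤ s → s ≤ 2 * 2 ^ e → 1 ≤ t → t ≤ 2 * 2 ^ e →
        ((UG N).Adj (φ s) (φ t) ↔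
          (s + 2 ^ e = t ∨ t + 2 ^ e = s ∨ s + 2 ^ e + 1 = t ∨ t + 2 ^ e + 1 = s))) := by
  classical
  set m := 2 ^ e with hm
  have hm1 : 1 ≤ m := Nat.one_le_two_pow
  obtain ⟨r0, hr0⟩ := exists_r0 m hm1
  have hr1 : 1 ≤ r0 := by
    by_contra h
    have : r0 = 0 := by omega
    subst this
    simp at hr0
    omega
  -- sizes
  set N := 2 * ((m * r0) * m) with hN
  have hmm : 1 ≤ (m * r0) * m := Nat.mul_pos (Nat.mul_pos hm1 hr1) hm1
  have hme : e < m := Nat.lt_two_pow_self
  have hNe : e + 1 ≤ N := by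
    have : m ≤ (m * r0) * m := Nat.le_mul_of_pos_left m (Nat.mul_pos hm1 hr1)
    omega
  have hq : (2 ^ m - 1) ^ r0 * 2 ^ N < 2 ^ (N - 1 - e) * 2 ^ (r0 * m) := by
    have h1 : 2 ^ N = 2 ^ (N - 1 - e) * (2 * m) := by
      rw [hm, ← pow_succ', ← pow_add]
      congr 1
      omega
    rw [h1]
    calc (2 ^ m - 1) ^ r0 * (2 ^ (N - 1 - e) * (2 * m))
        = 2 ^ (N - 1 - e) * ((2 ^ m - 1) ^ r0 * (2 * m)) := by ring
      _ < 2 ^ (N - 1 - e) * 2 ^ (r0 * m) := Nat.mul_lt_mul_of_pos_left hr0 (by positivity)
  have hmq : m * 2 ^ (N - 1 - e) = 2 ^ (N - 1) := by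
    rw [hm, ← pow_add]
    congr 1
    omega
  refine ⟨N, fun hC => ?_⟩
  obtain ⟨f, hf⟩ := exists_pos (V := Fin N ⊕ (Fin N → Bool)) (.inr (fun _ => false))
  obtain ⟨T, -, hT2, hT3⟩ := exists_split (fun y : Fin N → Bool => f (.inr y))
    (fun x y h => Sum.inr.inj (hf.1 h)) Finset.univ 2 (2 ^ (N - 1)) (by
      rw [Finset.card_univ]
      simp only [Fintype.card_fun, Fintype.card_bool, Fintype.card_fin]
      rw [← pow_succ']
      exact Nat.pow_le_pow_right (by norm_num) (by omega))
  have hT1ne : (T 1).Nonempty := by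
    rw [← Finset.card_pos, hT2]
    positivity
  obtain ⟨y0, hy0, hy0min⟩ := (T 1).exists_min_image (fun y => f (.inr y)) hT1ne
  set τ := f (.inr y0) with hτ
  have hlow : ∀ y ∈ T 0, f (.inr y) < τ := fun y hy => hT3 0 1 (by decide) y hy y0 hy0
  set X0 : Finset (Fin N) := Finset.univ.filter (fun x => f (.inl x) < τ) with hX0
  set X1 : Finset (Fin N) := Finset.univ.filter (fun x => ¬ f (.inl x) < τ) with hX1
  have hsum : X0.card + X1.card = N := by
    have := Finset.card_filter_add_card_filter_not (s := (Finset.univ : Finset (Fin N)))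
      (fun x => f (.inl x) < τ)
    rw [Finset.card_univ, Fintype.card_fin] at this
    exact this
  rcases Nat.lt_or_ge X0.card ((m * r0) * m) with hc | hc
  · -- many points after `τ`
    obtain ⟨L, hL⟩ : ∃ L, ∀ v, f v < L := by
      obtain ⟨B, hB⟩ := (Set.finite_range f).bddAbove
      exact ⟨B + 1, fun v => Nat.lt_succ_of_le (hB ⟨v, rfl⟩)⟩
    have hpos := pos_rotate hf τ L hL
    obtain ⟨φ, h1, h2⟩ := extract _ hpos hm1 hq X1 (T 0) (by omega) (by rw [hT2, hmq]) (by
      intro x hx y hy
      have e1 := (Finset.mem_filter.1 hx).2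
      have e2 := hlow y hy
      have e3 := hL (.inl x)
      rw [if_neg e1, if_pos e2]
      omega)
    exact ⟨_, φ, hpos, h1, h2⟩
  · obtain ⟨φ, h1, h2⟩ := extract f hf hm1 hq X0 (T 1) hc (by rw [hT2, hmq]) (by
      intro x hx y hy
      have e1 := (Finset.mem_filter.1 hx).2
      have e2 := hy0min y hy
      omega)
    exact ⟨f, φ, hf, h1, h2⟩

/-! ### The odd cycle -/

/-- The odd cycle on the positions `0, …, 2m`, where vertices almost opposite on the circle are
adjacent. -/
def Cyc (m : ℕ) (hm : 1 ≤ m) : SimpleGraph (Fin (2 * m + 1)) where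
  Adj i j := i.1 + m = j.1 ∨ j.1 + m = i.1 ∨ i.1 + m + 1 = j.1 ∨ j.1 + m + 1 = i.1
  symm := ⟨by intro i j h; omega⟩
  loopless := ⟨by intro i h; omega⟩

theorem cyc_not_bip (m : ℕ) (hm : 1 ≤ m) : ¬ Bip _ (Cyc m hm) := by
  rintro ⟨c⟩
  have hstep : ∀ i : ℕ, ∀ (h : i ≤ m), c ⟨m + i, by omega⟩ = c ⟨m, by omega⟩ := by
    intro i
    induction i with
    | zero => intro _; rfl
    | succ i ih =>
      intro h
      rw [← ih (by omega)]
      have a1 : (Cyc m hm).Adj ⟨i, by omega⟩ ⟨m + (i + 1), by omega⟩ := by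
        simp only [Cyc]; omega
      have a2 : (Cyc m hm).Adj ⟨i, by omega⟩ ⟨m + i, by omega⟩ := by
        simp only [Cyc]; omega
      have n1 := c.valid a1
      have n2 := c.valid a2
      have e0 := (c ⟨i, by omega⟩).2
      have e1 := (c ⟨m + (i + 1), by omega⟩).2
      have e2 := (c ⟨m + i, by omega⟩).2
      apply Fin.ext
      have n1' := fun h => n1 (Fin.ext h)
      have n2' := fun h => n2 (Fin.ext h)
      omega
  have a : (Cyc m hm).Adj ⟨m, by omega⟩ ⟨m + m, by omega⟩ := Or.inl rfl
  exact c.valid a (hstep m le_rfl).symm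

theorem bip_not_circular : ¬ DescribedCircularly Bip := by
  classical
  rintro ⟨F, hFfin, hF⟩
  obtain ⟨K, hK⟩ : ∃ K, ∀ H ∈ F, H.1 ≤ K := by
    obtain ⟨B, hB⟩ := (hFfin.image Sigma.fst).bddAbove
    exact ⟨B, fun H hH => hB ⟨H, hH, rfl⟩⟩
  set m := 2 ^ K with hm
  have hKm : K < m := Nat.lt_two_pow_self
  have hm1 : 1 ≤ m := by omega
  -- the pattern in the odd cycle
  have h1 := (hF (Fin (2 * m + 1)) (Cyc m hm1)).not.1 (cyc_not_bip m hm1)
  push Not at h1
  obtain ⟨H, hH, e, he1, he2, he3⟩ := h1 (LinearOrder.toCircularOrder (Fin (2 * m + 1)))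
  have hHK := hK H hH
  obtain ⟨v, hv⟩ : ∃ v, ∀ i, e i ≠ v := by
    by_contra hcon
    push Not at hcon
    have := Fintype.card_le_of_surjective e (fun v => hcon v)
    simp at this
    omega
  -- the universal bipartite graph
  obtain ⟨N, hN⟩ := exists_pattern K
  obtain ⟨hC, hfree⟩ := (hF _ (UG N)).1 (ug_bip N)
  obtain ⟨g, φ, hg, hφ1, hφ2⟩ := hN hC
  rw [← hm] at hφ1 hφ2
  apply hfree H hH
  let pos : Fin (2 * m + 1) → ℕ := fun x =>
    if v.1 < x.1 then x.1 - v.1 else x.1 + (2 * m + 1) - v.1
  have hpos : ∀ i, 1 ≤ pos (e i) ∧ pos (e i) ≤ 2 * m := by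
    intro i
    have h2 := (e i).2
    have h3 : (e i).1 ≠ v.1 := fun h => hv i (Fin.ext h)
    have h4 := v.2
    simp only [pos]
    split_ifs <;> omega
  have hlt : ∀ i j, pos (e i) < pos (e j) → g (φ (pos (e i))) < g (φ (pos (e j))) :=
    fun i j h => hφ1 _ _ (hpos i).1 h (hpos j).2
  refine ⟨fun i => φ (pos (e i)), ?_, ?_, ?_⟩
  · intro i j hij
    simp only at hij
    apply he1
    have h5 : pos (e i) = pos (e j) := by
      by_contra hne
      rcases Nat.lt_or_gt_of_ne hne with h | h
      · have := hlt i j h; rw [hij] at this; omega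
      · have := hlt j i h; rw [hij] at this; omega
    have h2 := (e i).2
    have h3 := (e j).2
    have h4 := v.2
    simp only [pos] at h5
    apply Fin.ext
    split_ifs at h5 <;> omega
  · intro i j k hij hjk
    have h2 := he2 i j k hij hjk
    have h3 : ((e i).1 < (e j).1 ∧ (e j).1 < (e k).1) ∨ ((e j).1 < (e k).1 ∧ (e k).1 < (e i).1) ∨
        ((e k).1 < (e i).1 ∧ (e i).1 < (e j).1) := h2
    have hpi := hpos i
    have hpj := hpos j
    have hpk := hpos k
    have ei := (e i).2
    have ej := (e j).2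
    have ek := (e k).2
    have hv2 := v.2
    have h4 : (pos (e i) < pos (e j) ∧ pos (e j) < pos (e k)) ∨
        (pos (e j) < pos (e k) ∧ pos (e k) < pos (e i)) ∨
        (pos (e k) < pos (e i) ∧ pos (e i) < pos (e j)) := by
      simp only [pos]
      split_ifs <;> omega
    rcases h4 with ⟨h5, h6⟩ | ⟨h5, h6⟩ | ⟨h5, h6⟩
    · exact hg.2 _ _ _ (hlt _ _ h5) (hlt _ _ h6)
    · exact (hg.2 _ _ _ (hlt _ _ h5) (hlt _ _ h6)).cyclic_right
    · exact (hg.2 _ _ _ (hlt _ _ h5) (hlt _ _ h6)).cyclic_left
  · intro i j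
    rw [← he3]
    have hpi := hpos i
    have hpj := hpos j
    rw [hφ2 _ _ hpi.1 hpi.2 hpj.1 hpj.2]
    have ei := (e i).2
    have ej := (e j).2
    have hv2 := v.2
    have hni : (e i).1 ≠ v.1 := fun h => hv i (Fin.ext h)
    have hnj : (e j).1 ≠ v.1 := fun h => hv j (Fin.ext h)
    simp only [pos, Cyc]
    split_ifs <;> omega

/-- The property of being bipartite is hereditary, is described by finitely many forbidden linearly
ordered graphs, and is not described by any finite set of forbidden circularly ordered graphs. -/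
theorem result : IsHereditary Bip ∧ DescribedLinearly Bip ∧ ¬ DescribedCircularly Bip :=
  ⟨bip_hereditary, bip_linear, bip_not_circular⟩

end Pool.Agent.Results.MP_b6cdd3_co.BipartiteNotCircular
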